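import Mathlib

/-! Two inequivalent extreme `64`-element subsets of `ℤ/127`: supports of circulant weighing
matrices coming from three-valued cross-correlations of `m`-sequences. -/

namespace Pool.Agent.Results.MP_6d480e_an.Inequivalent

/-- `E` carries a unimodular measure `μ` with `μ * μ̃ = |E| δ₀`. -/
def Extreme {p : ℕ} [NeZero p] (E : Finset (ZMod p)) : Prop :=
  ∃ c : ZMod p → ℂ, (∀ x ∈ E, ‖c x‖ = 1) ∧ (∀ x ∉ E, c x = 0) ∧
    ∀ d, ∑ x, c x * (starRingEnd ℂ) (c (x - d)) = if d = 0 then (E.card : ℂ) else 0

def sg (P N x : ℕ) : ℤ := if P.testBit x then 1 else if N.testBit x then -1 else 0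

def supp (P N : ℕ) : Finset (ZMod 127) := Finset.univ.filter fun x => sg P N x.val ≠ 0

lemma extreme (P N : ℕ) (h1 : (supp P N).card = 64)
    (h2 : ∀ d : ZMod 127, ∑ x : ZMod 127, sg P N x.val * sg P N (x - d).val =
      if d = 0 then 64 else 0) : Extreme (supp P N) := by
  refine ⟨fun x => (sg P N x.val : ℂ), fun x hx => ?_, fun x hx => ?_, fun d => ?_⟩
  · simp only [supp, Finset.mem_filter, Finset.mem_univ, true_and, sg] at hx ⊢
    split_ifs at hx ⊢ <;> simp at hx ⊢
  · simp only [supp, Finset.mem_filter, Finset.mem_univ, true_and, not_not] at hx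
    simp [hx]
  · have := congrArg (Int.cast : ℤ → ℂ) (h2 d)
    simp only [map_intCast, h1]
    push_cast at this ⊢
    exact this

def P1 : ℕ := 23972865257158424865127169037006042345
def N1 : ℕ := 5566345076441330931944342765506527744
def P2 : ℕ := 5214322599708593225687228249696897
def N2 : ℕ := 25307346794523079155530931782772884512

def chk : Bool := (List.range 127).all fun a => a == 0 || (List.range 127).all fun b =>
  (List.range 127).any fun x => sg P1 N1 x != 0 && sg P2 N2 ((a * x + b) % 127) == 0

lemma chk_true : chk = true := by decide +kernel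

theorem result : ∃ (p : ℕ) (_ : NeZero p) (n : ℕ) (E F : Finset (ZMod p)), p.Prime ∧ 1 < n ∧
    n < p ∧ E.card = n ∧ F.card = n ∧ Extreme E ∧ Extreme F ∧
    ∀ a b : ZMod p, a ≠ 0 → F ≠ E.image fun x => a * x + b := by
  have c1 : (supp P1 N1).card = 64 := by decide +kernel
  have c2 : (supp P2 N2).card = 64 := by decide +kernel
  refine ⟨127, inferInstance, 64, supp P1 N1, supp P2 N2, by norm_num, by norm_num, by norm_num,
    c1, c2, extreme _ _ c1 (by decide +kernel), extreme _ _ c2 (by decide +kernel), ?_⟩
  intro a b ha h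
  have := chk_true
  simp only [chk, List.all_eq_true, List.mem_range, Bool.or_eq_true, beq_iff_eq, List.any_eq_true,
    Bool.and_eq_true, bne_iff_ne] at this
  obtain ⟨x, hx, h1, h2⟩ := (this a.val a.val_lt).resolve_left
    (fun h0 => ha ((ZMod.val_eq_zero a).mp h0)) b.val b.val_lt
  have hm : a * (x : ZMod 127) + b ∈ supp P2 N2 := by
    rw [h]
    refine Finset.mem_image_of_mem _ ?_
    simp only [supp, Finset.mem_filter, Finset.mem_univ, true_and]
    rwa [ZMod.val_cast_of_lt hx]
  simp only [supp, Finset.mem_filter, Finset.mem_univ, true_and] at hm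
  apply hm
  have : a * (x : ZMod 127) + b = ((a.val * x + b.val : ℕ) : ZMod 127) := by simp
  rw [this, ZMod.val_natCast]
  exact h2

end Pool.Agent.Results.MP_6d480e_an.Inequivalent
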